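import Pool.Agent.K1H7.TS.Lat
import Pool.Agent.K1H16.TS.Stm

/-!
# `S_transfer`: transfer systems of a cyclic group of order `p ^ n q ^ m` and conflict-free sets
-/

namespace Pool.Agent.K1H7.TS

open K1H16.TS

variable {G : Type} [Group G] [IsCyclic G]

theorem cyc_comm (x y : G) : x * y = y * x := (IsCyclic.commGroup (α := G)).mul_comm x y

theorem map_conj (K : Subgroup G) (g : G) : K.map (MulAut.conj g).toMonoidHom = K := by
  ext x
  rw [Subgroup.mem_map]
  constructor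
  · rintro ⟨y, hy, rfl⟩
    have : (MulAut.conj g).toMonoidHom y = y := by
      show g * y * g⁻¹ = y
      rw [cyc_comm g y]; group
    rw [this]; exact hy
  · intro hx
    refine ⟨x, hx, ?_⟩
    show g * x * g⁻¹ = x
    rw [cyc_comm g x]; group

theorem isTransfer_iff {R : Subgroup G → Subgroup G → Prop} : IsTransfer R ↔ Tr R := by
  constructor
  · intro h
    exact ⟨h.refl, h.trans, h.le, h.restr⟩
  · intro h
    refine ⟨h.refl, h.trans, fun K H h1 h2 => le_antisymm (h.le _ _ h1) (h.le _ _ h2), h.le, ?_,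
      h.restr⟩
    intro K H h1 g
    rw [map_conj, map_conj]
    exact h1

theorem gen_eq {S : Set (Subgroup G × Subgroup G)} (hS : ∀ e ∈ S, e.1 < e.2) : gen S = Cl S := by
  ext K H
  constructor
  · intro h
    exact h _ (isTransfer_iff.2 (cl_tr S)) fun e he => mem_cl he (hS e he)
  · intro h R hR h1
    exact cl_le (isTransfer_iff.1 hR) h1 h

theorem isMin_iff {T : Subgroup G → Subgroup G → Prop} {S : Set (Subgroup G × Subgroup G)} :
    IsMinBasis T S ↔ MinB T S := by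
  constructor
  · rintro ⟨⟨h1, h2⟩, h3⟩
    rw [gen_eq fun e he => (h1 e he).1] at h2
    refine ⟨⟨h1, h2⟩, fun S' hS' => ?_⟩
    rw [← gen_eq fun e he => (h1 e (hS'.subset he)).1]
    exact h3 S' hS'
  · rintro ⟨⟨h1, h2⟩, h3⟩
    refine ⟨⟨h1, ?_⟩, fun S' hS' => ?_⟩
    · rw [gen_eq fun e he => (h1 e he).1]; exact h2
    · rw [gen_eq fun e he => (h1 e (hS'.subset he)).1]
      exact h3 S' hS'

theorem mBasis_eq [Finite G] {T : Subgroup G → Subgroup G → Prop} (hT : Tr T) :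
    mBasis T = (Mx T).ncard := by
  have h : {k | ∃ S, IsMinBasis T S ∧ S.ncard = k} = {(Mx T).ncard} := by
    ext k
    constructor
    · rintro ⟨S, h1, rfl⟩
      exact minB_ncard hT (isMin_iff.1 h1)
    · rintro rfl
      exact ⟨Mx T, isMin_iff.2 (mx_minB hT), rfl⟩
  rw [mBasis, h, csInf_singleton]

/-! ### The subgroups of a finite cyclic group -/

theorem mem_of_pow [Finite G] (H : Subgroup G) (x : G) (hx : x ^ Nat.card H = 1) : x ∈ H := by
  classical
  have := Fintype.ofFinite G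
  have h0 : 0 < Nat.card H := Nat.card_pos
  have h1 := IsCyclic.card_pow_eq_one_le (α := G) h0
  have h2 : (Finset.univ.filter (fun y : G => y ∈ H)) ⊆
      Finset.univ.filter (fun y : G => y ^ Nat.card H = 1) := by
    intro y hy
    rw [Finset.mem_filter] at hy ⊢
    refine ⟨hy.1, ?_⟩
    have := pow_card_eq_one' (G := H) (x := ⟨y, hy.2⟩)
    exact congrArg Subtype.val this
  have h3 : (Finset.univ.filter (fun y : G => y ∈ H)).card = Nat.card H := by
    rw [Nat.card_eq_fintype_card]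
    exact (Fintype.card_subtype (fun y : G => y ∈ H)).symm
  have h4 := Finset.eq_of_subset_of_card_le h2 (by rw [h3]; exact h1)
  have h5 : x ∈ Finset.univ.filter (fun y : G => y ^ Nat.card H = 1) :=
    Finset.mem_filter.2 ⟨Finset.mem_univ _, hx⟩
  rw [← h4] at h5
  exact (Finset.mem_filter.1 h5).2

theorem le_iff [Finite G] (K H : Subgroup G) : K ≤ H ↔ Nat.card K ∣ Nat.card H := by
  constructor
  · exact fun h => Subgroup.card_dvd_of_le h
  · rintro ⟨c, hc⟩ x hx
    apply mem_of_pow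
    rw [hc, pow_mul]
    have : x ^ Nat.card K = 1 := by
      have := pow_card_eq_one' (G := K) (x := ⟨x, hx⟩)
      exact congrArg Subtype.val this
    rw [this, one_pow]

theorem exists_sub [Finite G] {d : ℕ} (hd : d ∣ Nat.card G) : ∃ K : Subgroup G, Nat.card K = d := by
  obtain ⟨g, hg⟩ := IsCyclic.exists_ofOrder_eq_natCard (α := G)
  obtain ⟨c, hc⟩ := hd
  have hpos : 0 < Nat.card G := Nat.card_pos
  have hc0 : c ≠ 0 := by rintro rfl; omega
  refine ⟨Subgroup.zpowers (g ^ c), ?_⟩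
  rw [Nat.card_zpowers, orderOf_pow_of_dvd hc0 ⟨d, by rw [hg, hc, mul_comm]⟩, hg, hc,
    Nat.mul_div_cancel _ (Nat.pos_of_ne_zero hc0)]

theorem pq_dvd {p q : ℕ} (hp : p.Prime) (hq : q.Prime) (hpq : p ≠ q) (a b a' b' : ℕ) :
    p ^ a * q ^ b ∣ p ^ a' * q ^ b' ↔ a ≤ a' ∧ b ≤ b' := by
  have hc : Nat.Coprime p q := (Nat.coprime_primes hp hq).2 hpq
  constructor
  · intro h
    constructor
    · have h1 : p ^ a ∣ p ^ a' * q ^ b' := (dvd_mul_right _ _).trans h
      have h2 : p ^ a ∣ p ^ a' := (Nat.Coprime.pow a b' hc).dvd_of_dvd_mul_right h1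
      exact (Nat.pow_dvd_pow_iff_le_right hp.one_lt).1 h2
    · have h1 : q ^ b ∣ p ^ a' * q ^ b' := (dvd_mul_left _ _).trans h
      have h2 : q ^ b ∣ q ^ b' := (Nat.Coprime.pow b a' hc.symm).dvd_of_dvd_mul_left h1
      exact (Nat.pow_dvd_pow_iff_le_right hq.one_lt).1 h2
  · rintro ⟨h1, h2⟩
    exact mul_dvd_mul (pow_dvd_pow _ h1) (pow_dvd_pow _ h2)

theorem exists_code [Finite G] {p q n m : ℕ} (hp : p.Prime) (hq : q.Prime) (hpq : p ≠ q)
    (hG : Nat.card G = p ^ n * q ^ m) : ∃ a b : Subgroup G → ℕ,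
      (∀ K H, K ≤ H ↔ a K ≤ a H ∧ b K ≤ b H) ∧ (∀ K, a K ≤ n ∧ b K ≤ m) ∧
      ∀ i ≤ n, ∀ j ≤ m, ∃ K, a K = i ∧ b K = j := by
  have h1 : ∀ K : Subgroup G, ∃ i j : ℕ, Nat.card K = p ^ i * q ^ j := by
    intro K
    have h2 : Nat.card K ∣ p ^ n * q ^ m := hG ▸ Subgroup.card_subgroup_dvd_card K
    obtain ⟨d, e, hd, he, hde⟩ := (Nat.dvd_mul).1 h2
    obtain ⟨i, -, rfl⟩ := (Nat.dvd_prime_pow hp).1 hd
    obtain ⟨j, -, rfl⟩ := (Nat.dvd_prime_pow hq).1 he
    exact ⟨i, j, hde.symm⟩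
  choose a b hab using h1
  have hle : ∀ K H, K ≤ H ↔ a K ≤ a H ∧ b K ≤ b H := by
    intro K H
    rw [le_iff, hab, hab, pq_dvd hp hq hpq]
  refine ⟨a, b, hle, fun K => ?_, fun i hi j hj => ?_⟩
  · have h2 : Nat.card K ∣ p ^ n * q ^ m := hG ▸ Subgroup.card_subgroup_dvd_card K
    rw [hab, pq_dvd hp hq hpq] at h2
    exact h2
  · obtain ⟨K, hK⟩ := exists_sub (G := G) (d := p ^ i * q ^ j)
      (by rw [hG, pq_dvd hp hq hpq]; exact ⟨hi, hj⟩)
    refine ⟨K, ?_⟩
    have h3 := (pq_dvd hp hq hpq (a K) (b K) i j).1 (by rw [← hab, hK])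
    have h4 := (pq_dvd hp hq hpq i j (a K) (b K)).1 (by rw [← hab, hK])
    omega

theorem t_transfer : S_transfer := by
  intro G _ _ p q n m hp hq hpq hG
  have hfin : Finite G := Nat.finite_of_card_ne_zero (by
    rw [hG]; exact mul_ne_zero (pow_ne_zero _ hp.ne_zero) (pow_ne_zero _ hq.ne_zero))
  obtain ⟨a, b, hle, hnm, hsurj⟩ := exists_code (G := G) hp hq hpq hG
  let code : Subgroup G × Subgroup G → Pr := fun e => ⟨a e.1, b e.1, a e.2, b e.2⟩
  have hinj1 : ∀ K H, a K = a H → b K = b H → K = H := fun K H h1 h2 =>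
    le_antisymm ((hle K H).2 ⟨h1.le, h2.le⟩) ((hle H K).2 ⟨h1.ge, h2.ge⟩)
  have hinj : Function.Injective code := by
    intro e f h
    simp only [code, Pr.mk.injEq, Nat.cast_inj] at h
    obtain ⟨h1, h2, h3, h4⟩ := h
    exact Prod.ext (hinj1 _ _ h1 h2) (hinj1 _ _ h3 h4)
  have hlt : ∀ K H : Subgroup G, K < H → a K ≤ a H ∧ b K ≤ b H ∧ (a K < a H ∨ b K < b H) := by
    intro K H h
    obtain ⟨h1, h2⟩ := (hle K H).1 h.le
    refine ⟨h1, h2, ?_⟩
    by_contra hcon
    push Not at hcon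
    exact h.ne (hinj1 K H (by omega) (by omega))
  have hgr : ∀ e : Subgroup G × Subgroup G, e.1 < e.2 → Gr n m (code e) := by
    intro e he
    obtain ⟨h1, h2, h3⟩ := hlt _ _ he
    obtain ⟨h4, h5⟩ := hnm e.2
    refine ⟨⟨?_, ?_, ?_⟩, ?_, ?_, ?_, ?_⟩ <;> simp only [code] <;> omega
  have hcf : ∀ e f : Subgroup G × Subgroup G,
      Cf (code e) (code f) ↔ e.1 ≤ f.1 ∧ e.2 ≤ f.2 ∧ ¬ e.2 ≤ f.1 := by
    intro e f
    rw [hle e.1 f.1, hle e.2 f.2, hle e.2 f.1]
    unfold Cf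
    simp only [code]
    omega
  constructor
  · intro T hT
    rw [isTransfer_iff] at hT
    refine ⟨⟨Mx T, isMin_iff.2 (mx_minB hT)⟩, fun S hS => ⟨Set.toFinite _, ?_⟩, ?_⟩
    · rw [mBasis_eq hT]
      exact minB_ncard hT (isMin_iff.1 hS)
    · refine ⟨((Set.toFinite (code '' (Mx T))).toFinset), ?_, ?_, ?_⟩
      · intro u hu v hv huv
        rw [Set.Finite.mem_toFinset] at hu hv
        obtain ⟨e, he, rfl⟩ := hu
        obtain ⟨f, hf, rfl⟩ := hv
        obtain ⟨h1, h2, h3⟩ := (hcf e f).1 huv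
        rw [mx_conflict hT he hf h1 h2 h3]
      · intro u hu
        rw [Set.Finite.mem_toFinset] at hu
        obtain ⟨e, he, rfl⟩ := hu
        exact hgr e he.1.1
      · rw [← Set.ncard_eq_toFinset_card _, Set.ncard_image_of_injective _ hinj, mBasis_eq hT]
  · intro E hE hEg
    let E' : Set (Subgroup G × Subgroup G) := {e | code e ∈ E}
    have h1 : ∀ e ∈ E', e.1 < e.2 := by
      intro e he
      obtain ⟨⟨h1, h2, h3⟩, -⟩ := hEg _ he
      simp only [code] at h1 h2 h3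
      refine lt_of_le_of_ne ((hle _ _).2 ⟨by omega, by omega⟩) fun h => ?_
      rw [h] at h3
      omega
    have h2 := conflict_minB h1 (fun e he f hf h3 h4 h5 =>
      hinj (hE _ he _ hf ((hcf e f).2 ⟨h3, h4, h5⟩)))
    have h3 : code '' E' = (E : Set Pr) := by
      ext u
      constructor
      · rintro ⟨e, he, rfl⟩
        exact he
      · intro hu
        obtain ⟨⟨g1, g2, g3⟩, g4, g5, g6, g7⟩ := hEg u hu
        obtain ⟨K, hK1, hK2⟩ := hsurj u.a.toNat (by omega) u.x.toNat (by omega)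
        obtain ⟨H, hH1, hH2⟩ := hsurj u.b.toNat (by omega) u.y.toNat (by omega)
        have h4 : code (K, H) = u := by
          ext <;> simp only [code] <;> omega
        refine ⟨(K, H), ?_, h4⟩
        show code (K, H) ∈ E
        rw [h4]
        exact hu
    refine ⟨Cl E', isTransfer_iff.2 (cl_tr E'), ?_⟩
    rw [mBasis_eq (cl_tr E'), ← minB_ncard (cl_tr E') h2, ← Set.ncard_image_of_injective _ hinj, h3,
      Set.ncard_coe_finset]

end Pool.Agent.K1H7.TS
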