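import Mathlib

/-!
# Transfer systems on a finite lattice: all minimal bases have the same size

`Tr R`: `R` is a partial order refining `≤` and closed under restriction. `Cl S`: the transfer system
generated by `S`. `Mx T`: the maximal covers of `T`; it is a minimal basis, conflict-free, and all
minimal bases have as many elements.
-/

namespace Pool.Agent.K1H7.TS

variable {L : Type*} [Lattice L]

/-- transfer systems on a lattice -/
structure Tr (R : L → L → Prop) : Prop where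
  refl : ∀ K, R K K
  trans : ∀ K M H, R K M → R M H → R K H
  le : ∀ K H, R K H → K ≤ H
  restr : ∀ K H M, R K H → M ≤ H → R (K ⊓ M) M

/-- a strict restriction of an element of `S` -/
def St (S : Set (L × L)) (K M : L) : Prop := K < M ∧ ∃ e ∈ S, M ≤ e.2 ∧ K = e.1 ⊓ M

/-- chains of restrictions -/
def Cl (S : Set (L × L)) : L → L → Prop := Relation.ReflTransGen (St S)

theorem Cl.le {S : Set (L × L)} {K H : L} (h : Cl S K H) : K ≤ H := by
  induction h with
  | refl => exact le_rfl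
  | tail _ h ih => exact ih.trans h.1.le

theorem St.mono {S S' : Set (L × L)} (h : S ⊆ S') {K M : L} (h1 : St S K M) : St S' K M := by
  obtain ⟨h2, e, he, h3⟩ := h1
  exact ⟨h2, e, h he, h3⟩

theorem Cl.mono {S S' : Set (L × L)} (h : S ⊆ S') {K M : L} (h1 : Cl S K M) : Cl S' K M := by
  induction h1 with
  | refl => exact Relation.ReflTransGen.refl
  | tail _ h2 ih => exact ih.tail (h2.mono h)

theorem cl_restr {S : Set (L × L)} {K H : L} (h : Cl S K H) : ∀ M ≤ H, Cl S (K ⊓ M) M := by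
  induction h with
  | refl =>
    intro M hM
    rw [inf_eq_right.2 hM]
    exact Relation.ReflTransGen.refl
  | @tail b c h1 h2 ih =>
    intro M hM
    obtain ⟨h3, e, he, h4, h5⟩ := h2
    have h6 : b ⊓ M = e.1 ⊓ M := by rw [h5, inf_assoc, inf_eq_right.2 hM]
    have h7 := ih (b ⊓ M) inf_le_left
    rw [← inf_assoc, inf_eq_left.2 (Cl.le h1)] at h7
    rcases eq_or_lt_of_le (inf_le_right : b ⊓ M ≤ M) with h8 | h8
    · rw [h8] at h7
      exact h7
    · exact h7.tail ⟨h8, e, he, hM.trans h4, h6⟩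

theorem cl_tr (S : Set (L × L)) : Tr (Cl S) where
  refl _ := Relation.ReflTransGen.refl
  trans _ _ _ h1 h2 := Relation.ReflTransGen.trans h1 h2
  le _ _ h := Cl.le h
  restr _ _ M h hM := cl_restr h M hM

theorem mem_cl {S : Set (L × L)} {e : L × L} (he : e ∈ S) (h : e.1 < e.2) : Cl S e.1 e.2 :=
  Relation.ReflTransGen.single ⟨h, e, he, le_rfl, (inf_eq_left.2 h.le).symm⟩

theorem cl_le {S : Set (L × L)} {R : L → L → Prop} (hR : Tr R) (h : ∀ e ∈ S, R e.1 e.2) {K H : L}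
    (h1 : Cl S K H) : R K H := by
  induction h1 with
  | refl => exact hR.refl _
  | tail _ h2 ih =>
    obtain ⟨_, e, he, h4, h5⟩ := h2
    refine hR.trans _ _ _ ih ?_
    rw [h5]
    exact hR.restr _ _ _ (h e he) h4

theorem cl_subset {S S' : Set (L × L)} (h : ∀ e ∈ S, Cl S' e.1 e.2) {K H : L} (h1 : Cl S K H) :
    Cl S' K H := cl_le (cl_tr S') h h1

/-- covers of `T` -/
def Cov (T : L → L → Prop) : Set (L × L) :=
  {e | e.1 < e.2 ∧ T e.1 e.2 ∧ ∀ r, e.1 < r → r < e.2 → T e.1 r → ¬ T r e.2}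

/-- `e` is a restriction of `f` -/
def Res (e f : L × L) : Prop := e.2 ≤ f.2 ∧ e.1 = f.1 ⊓ e.2

/-- maximal covers -/
def Mx (T : L → L → Prop) : Set (L × L) := {e | e ∈ Cov T ∧ ∀ f ∈ Cov T, Res e f → e = f}

/-- minimal bases -/
def MinB (T : L → L → Prop) (S : Set (L × L)) : Prop :=
  ((∀ e ∈ S, e.1 < e.2 ∧ T e.1 e.2) ∧ Cl S = T) ∧ ∀ S' ⊂ S, Cl S' ≠ T

theorem cov_cl {T : L → L → Prop} {S : Set (L × L)} (hS : Cl S = T) {c : L × L}
    (hc : c ∈ Cov T) {S' : Set (L × L)} (hS' : S' ⊆ S) (h : Cl S' c.1 c.2) :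
    ∃ e ∈ S', Res c e := by
  obtain ⟨h1, h2, h3⟩ := hc
  rcases Relation.ReflTransGen.cases_tail h with h4 | ⟨r, h4, h5⟩
  · exact absurd h4.symm h1.ne
  · obtain ⟨h6, e, he, h7, h8⟩ := h5
    have h9 : T c.1 r := by rw [← hS]; exact Cl.mono hS' h4
    have h10 : T r c.2 := by
      rw [← hS]; exact Relation.ReflTransGen.single ⟨h6, e, hS' he, h7, h8⟩
    have h11 : c.1 = r := by
      by_contra hne
      exact h3 r (lt_of_le_of_ne (Cl.le h4) hne) h6 h9 h10
    exact ⟨e, he, h7, by rw [h11]; exact h8⟩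

section Fin

variable [Finite L]

theorem cov_gen {T : L → L → Prop} (hT : Tr T) : ∀ t s, T s t → Cl (Cov T) s t := by
  intro t
  induction t using WellFoundedLT.induction with
  | ind t ih =>
    intro s hst
    rcases eq_or_lt_of_le (hT.le _ _ hst) with h | h
    · rw [h]; exact Relation.ReflTransGen.refl
    · obtain ⟨r, hr, hmax⟩ := (Set.toFinite {r | r < t ∧ s ≤ r ∧ T s r ∧ T r t}).exists_maximal
        ⟨s, h, le_rfl, hT.refl _, hst⟩
      obtain ⟨h1, h2, h3, h4⟩ := hr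
      have h5 : ((r, t) : L × L) ∈ Cov T := by
        refine ⟨h1, h4, fun r' h6 h7 h8 h9 => ?_⟩
        exact absurd (hmax ⟨h7, h2.trans h6.le, hT.trans _ _ _ h3 h8, h9⟩ h6.le) (not_le_of_gt h6)
      exact (ih r h1 s h3).tail ⟨h1, (r, t), h5, le_rfl, (inf_eq_left.2 h1.le).symm⟩

theorem exists_mx {T : L → L → Prop} {e : L × L} (he : e ∈ Cov T) : ∃ f ∈ Mx T, Res e f := by
  obtain ⟨y, hy, hmax⟩ := (Set.toFinite {y | ∃ f ∈ Cov T, Res e f ∧ f.2 = y}).exists_maximal
    ⟨e.2, e, he, ⟨le_rfl, (inf_eq_left.2 he.1.le).symm⟩, rfl⟩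
  obtain ⟨f, hf, hef, rfl⟩ := hy
  refine ⟨f, ⟨hf, fun g hg hfg => ?_⟩, hef⟩
  have h1 : Res e g := by
    refine ⟨hef.1.trans hfg.1, ?_⟩
    rw [hef.2, hfg.2, inf_assoc, inf_eq_right.2 hef.1]
  have h2 : f.2 = g.2 := le_antisymm hfg.1 (hmax ⟨g, hg, h1, rfl⟩ hfg.1)
  have h3 : f.1 = g.1 := by rw [hfg.2, h2, inf_eq_left.2 hg.1.le]
  exact Prod.ext h3 h2

theorem mx_gen {T : L → L → Prop} (hT : Tr T) : Cl (Mx T) = T := by
  ext s t
  constructor
  · intro h
    exact cl_le hT (fun e he => he.1.2.1) h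
  · intro h
    refine cl_subset ?_ (cov_gen hT t s h)
    intro e he
    obtain ⟨f, hf, h1, h2⟩ := exists_mx he
    exact Relation.ReflTransGen.single ⟨he.1, f, hf, h1, h2⟩

theorem mx_minB {T : L → L → Prop} (hT : Tr T) : MinB T (Mx T) := by
  refine ⟨⟨fun e he => ⟨he.1.1, he.1.2.1⟩, mx_gen hT⟩, fun S' hS' h => ?_⟩
  obtain ⟨c, hc, hc'⟩ := Set.exists_of_ssubset hS'
  have h1 : Cl S' c.1 c.2 := by rw [h]; exact hc.1.2.1
  obtain ⟨e, he, h2⟩ := cov_cl (mx_gen hT) hc.1 hS'.subset h1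
  have := hc.2 e (hS'.subset he).1 h2
  rw [this] at hc'
  exact hc' he

theorem eq_mx {T : L → L → Prop} (hT : Tr T) {B : Set (L × L)} (hB : MinB T B)
    (hc : B ⊆ Cov T) : B = Mx T := by
  have h1 : Mx T ⊆ B := by
    intro c hcm
    have h1 : Cl B c.1 c.2 := by rw [hB.1.2]; exact hcm.1.2.1
    obtain ⟨e, he, h2⟩ := cov_cl hB.1.2 hcm.1 subset_rfl h1
    rw [hcm.2 e (hc he) h2]
    exact he
  by_contra hne
  exact hB.2 _ (lt_of_le_of_ne h1 (Ne.symm hne)) (mx_gen hT)

omit [Finite L] in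
/-- avoiding the element `b` -/
theorem cl_avoid {B : Set (L × L)} (b : L × L) {r t : L} (hr : ¬ r ≤ b.1) (h : Cl B r t) :
    Cl (B \ {b}) r t := by
  induction h with
  | refl => exact Relation.ReflTransGen.refl
  | @tail c d h1 h2 ih =>
    obtain ⟨h3, e, he, h4, h5⟩ := h2
    refine ih.tail ⟨h3, e, ⟨he, ?_⟩, h4, h5⟩
    rintro rfl
    exact hr ((Cl.le h1).trans (h5.le.trans inf_le_left))

/-- replacement of an element of a minimal basis by a cover -/
theorem replace {T : L → L → Prop} (hT : Tr T) {B : Set (L × L)} (hB : MinB T B) {b : L × L}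
    (hb : b ∈ B) (hbc : b ∉ Cov T) : ∃ c ∈ Cov T, c ∉ B ∧ MinB T (insert c (B \ {b})) := by
  obtain ⟨hlt, hTb⟩ := hB.1.1 b hb
  obtain ⟨r, hr, hmin⟩ := (Set.toFinite {r | b.1 < r ∧ r ≤ b.2 ∧ T b.1 r ∧ T r b.2}).exists_minimal
    ⟨b.2, hlt, le_rfl, hTb, hT.refl _⟩
  obtain ⟨h1, h2, h3, h4⟩ := hr
  have hrne : r ≠ b.2 := by
    rintro rfl
    apply hbc
    refine ⟨hlt, hTb, fun r h6 h7 h8 h9 => ?_⟩
    exact absurd (hmin ⟨h6, h7.le, h8, h9⟩ h7.le) (not_le_of_gt h7)
  have hcov : ((b.1, r) : L × L) ∈ Cov T := by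
    refine ⟨h1, h3, fun r' h6 h7 h8 h9 => ?_⟩
    exact absurd (hmin ⟨h6, h7.le.trans h2, h8, hT.trans _ _ _ h9 h4⟩ h7.le) (not_le_of_gt h7)
  have hrt : Cl (B \ {b}) r b.2 := by
    apply cl_avoid b (not_le_of_gt h1)
    rw [hB.1.2]
    exact h4
  have hss : B \ {b} ⊂ B := by
    refine ⟨Set.sdiff_subset, fun h => ?_⟩
    exact (h hb).2 rfl
  -- generation by sets containing the new element
  have key : ∀ S : Set (L × L), ((b.1, r) : L × L) ∈ S → B \ {b} ⊆ S → Cl S b.1 b.2 := by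
    intro S hS1 hS2
    exact (mem_cl hS1 h1).trans (hrt.mono hS2)
  have hnew : ((b.1, r) : L × L) ∉ B := by
    intro hmem
    have hmem' : ((b.1, r) : L × L) ∈ B \ {b} := by
      refine ⟨hmem, fun h => hrne ?_⟩
      have h' := congrArg Prod.snd h
      exact h'
    apply hB.2 _ hss
    ext s t
    constructor
    · intro h
      rw [← hB.1.2]
      exact h.mono Set.sdiff_subset
    · intro h
      rw [← hB.1.2] at h
      refine cl_subset ?_ h
      intro e he
      by_cases heb : e = b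
      · rw [heb]
        exact key _ hmem' subset_rfl
      · exact mem_cl ⟨he, heb⟩ (hB.1.1 e he).1
  have hgen : Cl (insert ((b.1, r) : L × L) (B \ {b})) = T := by
    ext s t
    constructor
    · intro h
      refine cl_le hT ?_ h
      intro e he
      rcases he with rfl | he
      · exact h3
      · exact (hB.1.1 e he.1).2
    · intro h
      rw [← hB.1.2] at h
      refine cl_subset ?_ h
      intro e he
      by_cases heb : e = b
      · rw [heb]
        exact key _ (Set.mem_insert _ _) (Set.subset_insert _ _)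
      · exact mem_cl (Set.mem_insert_of_mem _ ⟨he, heb⟩) (hB.1.1 e he).1
  refine ⟨(b.1, r), hcov, hnew, ⟨?_, hgen⟩, ?_⟩
  · rintro e (rfl | he)
    · exact ⟨h1, h3⟩
    · exact hB.1.1 e he.1
  · intro S' hS' hST
    obtain ⟨c, hc, hc'⟩ := Set.exists_of_ssubset hS'
    rcases hc with rfl | hc
    · -- the new element is missing
      have h5 : S' ⊆ B \ {b} := by
        intro e he
        rcases hS'.subset he with rfl | h6
        · exact absurd he hc'
        · exact h6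
      apply hB.2 _ (lt_of_le_of_lt h5 hss)
      exact hST
    · -- an old element is missing
      apply hB.2 (B \ {c}) ⟨Set.sdiff_subset, fun h => (h hc.1).2 rfl⟩
      ext s t
      constructor
      · intro h
        rw [← hB.1.2]
        exact h.mono Set.sdiff_subset
      · intro h
        rw [← hST] at h
        refine cl_subset ?_ h
        intro e he
        rcases hS'.subset he with rfl | h6
        · have hbc' : b ∈ B \ {c} := ⟨hb, fun h => hc.2 (by rw [h]; rfl)⟩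
          exact Relation.ReflTransGen.single ⟨h1, b, hbc', h2, (inf_eq_left.2 h1.le).symm⟩
        · refine mem_cl ⟨h6.1, ?_⟩ (hB.1.1 e h6.1).1
          rintro rfl
          exact hc' he

theorem ncard_eq {T : L → L → Prop} (hT : Tr T) : ∀ k : ℕ, ∀ B : Set (L × L), MinB T B →
    (B \ Cov T).ncard = k → B.ncard = (Mx T).ncard := by
  intro k
  induction k with
  | zero =>
    intro B hB h
    have h1 : B \ Cov T = ∅ := (Set.ncard_eq_zero (Set.toFinite _)).1 h
    rw [eq_mx hT hB (Set.sdiff_eq_empty.1 h1)]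
  | succ k ih =>
    intro B hB h
    have h1 : (B \ Cov T).Nonempty := by
      rw [Set.nonempty_iff_ne_empty]
      intro h2
      rw [h2, Set.ncard_empty] at h
      omega
    obtain ⟨b, hb, hbc⟩ := h1
    obtain ⟨c, hc, hcB, hB'⟩ := replace hT hB hb hbc
    have h2 : (insert c (B \ {b})) \ Cov T = (B \ Cov T) \ {b} := by
      ext e
      constructor
      · rintro ⟨rfl | h3, h4⟩
        · exact absurd hc h4
        · exact ⟨⟨h3.1, h4⟩, h3.2⟩
      · rintro ⟨⟨h3, h4⟩, h5⟩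
        exact ⟨Or.inr ⟨h3, h5⟩, h4⟩
    have h3 := ih _ hB' (by
      have h4 : b ∈ B \ Cov T := ⟨hb, hbc⟩
      rw [h2, Set.ncard_sdiff_singleton_of_mem h4, h]
      omega)
    rw [← h3, Set.ncard_insert_of_notMem (fun h => hcB h.1) (Set.toFinite _),
      Set.ncard_sdiff_singleton_of_mem hb]
    have : 0 < B.ncard := (Set.ncard_pos (Set.toFinite _)).2 ⟨b, hb⟩
    omega

/-- **All minimal bases have the same size.** -/
theorem minB_ncard {T : L → L → Prop} (hT : Tr T) {B : Set (L × L)} (hB : MinB T B) :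
    B.ncard = (Mx T).ncard := ncard_eq hT _ B hB rfl

end Fin

/-- **The maximal covers are conflict-free.** -/
theorem mx_conflict {T : L → L → Prop} (hT : Tr T) {c c' : L × L} (hc : c ∈ Mx T) (hc' : c' ∈ Mx T)
    (h1 : c.1 ≤ c'.1) (h2 : c.2 ≤ c'.2) (h3 : ¬ c.2 ≤ c'.1) : c = c' := by
  obtain ⟨⟨h4, h5, h6⟩, h7⟩ := hc
  have h8 : T (c'.1 ⊓ c.2) c.2 := hT.restr _ _ _ hc'.1.2.1 h2
  have h9 : c.1 ≤ c'.1 ⊓ c.2 := le_inf h1 h4.le
  have h10 : T c.1 (c'.1 ⊓ c.2) := by
    have := hT.restr _ _ (c'.1 ⊓ c.2) h5 inf_le_right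
    rwa [inf_eq_left.2 h9] at this
  have h11 : c'.1 ⊓ c.2 < c.2 := lt_of_le_of_ne inf_le_right (fun h => h3 (inf_eq_right.1 h))
  apply h7 _ hc'.1
  refine ⟨h2, ?_⟩
  by_contra hne
  exact h6 _ (lt_of_le_of_ne h9 hne) h11 h10 h8

/-- **A conflict-free set is a minimal basis.** -/
theorem conflict_minB {E : Set (L × L)} (hE : ∀ e ∈ E, e.1 < e.2)
    (h : ∀ e ∈ E, ∀ f ∈ E, e.1 ≤ f.1 → e.2 ≤ f.2 → ¬ e.2 ≤ f.1 → e = f) : MinB (Cl E) E := by
  refine ⟨⟨fun e he => ⟨hE e he, mem_cl he (hE e he)⟩, rfl⟩, fun S' hS' hgen => ?_⟩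
  obtain ⟨c, hc, hc'⟩ := Set.exists_of_ssubset hS'
  have h1 : Cl S' c.1 c.2 := by rw [hgen]; exact mem_cl hc (hE c hc)
  rcases Relation.ReflTransGen.cases_tail h1 with h4 | ⟨r, h4, h6, f, hf, h7, h8⟩
  · exact absurd h4.symm (hE c hc).ne
  · have h9 : c = f := by
      refine h c hc f (hS'.subset hf) ((Cl.le h4).trans (h8.le.trans inf_le_left)) h7 fun h10 => ?_
      rw [inf_eq_right.2 h10] at h8
      exact h6.ne h8
    rw [h9] at hc'
    exact hc' hf

end Pool.Agent.K1H7.TS
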